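import Mathlib

open Polynomial

namespace Pool.Agent.Results.MP_a5410e_nt.Counter

lemma degf (R : Type*) [Field R] (p : ℕ) (hp : 2 ≤ p) :
    (X + (X ^ p - X) ^ (p + 1) : R[X]).natDegree = (p + 1) * p := by
  have h1 : (X ^ p - X : R[X]).natDegree = p := by
    rw [natDegree_sub_eq_left_of_natDegree_lt] <;> simp; omega
  have h2 : ((X ^ p - X) ^ (p + 1) : R[X]).natDegree = (p + 1) * p := by
    rw [natDegree_pow, h1]
  rw [natDegree_add_eq_right_of_natDegree_lt, h2]
  rw [h2, natDegree_X]; nlinarith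

lemma inf_set (K : Type*) [Field K] [IsAlgClosed K] (p : ℕ) [hp : Fact p.Prime] [CharP K p]
    (t : K) : Set.Infinite {l : K | ∃ m n : ℕ, 1 ≤ m ∧ 1 ≤ n ∧
      (fun x => (x + (x ^ p - x) ^ (p + 1)) + l)^[m] t = t ∧
      (fun x => (x + (x ^ p - x) ^ (p + 1)) + l)^[n] (t + 1) = t} := by
  have p2 := hp.out.two_le
  set F : K → K → K := fun l x => (x + (x ^ p - x) ^ (p + 1)) + l with hF
  have c1 : ∀ l x, F l (x + 1) = F l x + 1 := by
    intro l x
    simp only [hF]
    rw [add_pow_char, one_pow]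
    have : x ^ p + 1 - (x + 1) = x ^ p - x := by ring
    rw [this]; ring
  have c2 : ∀ l (k : ℕ) x, (F l)^[k] (x + 1) = (F l)^[k] x + 1 := by
    intro l k
    induction k with
    | zero => intro x; rfl
    | succ k ih => intro x; rw [Function.iterate_succ_apply, c1, ih]; rfl
  have c3 : ∀ l (k i : ℕ) x, (F l)^[k] (x + i) = (F l)^[k] x + i := by
    intro l k i x
    induction i with
    | zero => simp
    | succ i ih => push_cast; rw [← add_assoc, c2, ih, add_assoc]
  have c4 : ∀ l (k : ℕ), (F l)^[k] t + 1 = t → ∀ i : ℕ, (F l)^[k * i] t + i = t := by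
    intro l k h i
    induction i with
    | zero => simp
    | succ i ih =>
      rw [Nat.mul_succ, add_comm (k * i) k, Function.iterate_add_apply]
      push_cast
      rw [← add_assoc, ← c3, ih, h]
  have c5 : ∀ l (k : ℕ), (F l)^[k] t + 1 = t → (F l)^[k * p] t = t := by
    intro l k h
    have := c4 l k h p
    rwa [CharP.cast_eq_zero, add_zero] at this
  have ex : ∀ k : ℕ, ∃ Q : K[X], 1 ≤ Q.natDegree ∧ ∀ l, Q.eval l = (F l)^[k + 1] t := by
    intro k
    induction k with
    | zero =>
      refine ⟨X + C (t + (t ^ p - t) ^ (p + 1)), by rw [natDegree_X_add_C], fun l => ?_⟩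
      simp [hF]; ring
    | succ k ih =>
      obtain ⟨Q, h1, h2⟩ := ih
      refine ⟨(X + (X ^ p - X) ^ (p + 1) : K[X]).comp Q + X, ?_, fun l => ?_⟩
      · have : ((X + (X ^ p - X) ^ (p + 1) : K[X]).comp Q).natDegree = (p + 1) * p * Q.natDegree := by
          rw [natDegree_comp, degf K p p2]
        have h3 : 2 ≤ (p + 1) * p * Q.natDegree := by
          have : 2 * 1 ≤ (p + 1) * p * Q.natDegree := Nat.mul_le_mul (by nlinarith) h1
          omega
        rw [natDegree_add_eq_left_of_natDegree_lt (by rw [this, natDegree_X]; omega), this]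
        omega
      · rw [Function.iterate_succ_apply' (F l) (k + 1), ← h2]
        simp [hF, eval_comp]
  have ex2 : ∀ j : ℕ, ∃ l : K, (F l)^[p ^ j] t + 1 = t := by
    intro j
    obtain ⟨Q, h1, h2⟩ := ex (p ^ j - 1)
    have : p ^ j - 1 + 1 = p ^ j := Nat.sub_add_cancel (Nat.one_le_pow _ _ (by omega))
    rw [this] at h2
    have hd : (Q + C (1 - t)).degree ≠ 0 := by
      have : 0 < (Q + C (1 - t)).natDegree := by rw [natDegree_add_C]; omega
      exact (natDegree_pos_iff_degree_pos.1 this).ne'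
    obtain ⟨l, hl⟩ := IsAlgClosed.exists_root _ hd
    refine ⟨l, ?_⟩
    rw [IsRoot, eval_add, eval_C, h2] at hl
    linear_combination hl
  choose g hg using ex2
  have ne : ∀ i j, i < j → g i ≠ g j := by
    intro i j hij e
    have h1 := c5 _ _ (hg i)
    have h2 := hg j
    obtain ⟨r, rfl⟩ := Nat.exists_eq_add_of_lt hij
    have h3 : (F (g i))^[p ^ i * p * p ^ r] t = t := by
      rw [Function.iterate_mul]
      exact Function.iterate_fixed h1 _
    rw [← e, show p ^ (i + r + 1) = p ^ i * p * p ^ r by ring, h3] at h2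
    simp at h2
  have inj : Function.Injective g := by
    intro i j e
    rcases lt_trichotomy i j with h | h | h
    · exact absurd e (ne i j h)
    · exact h
    · exact absurd e.symm (ne j i h)
  apply Set.infinite_of_injective_forall_mem inj
  intro j
  have := Nat.one_le_pow j p (by omega)
  exact ⟨p ^ j * p, p ^ j, by nlinarith, this, c5 _ _ (hg j), (c2 _ _ _).trans (hg j)⟩

theorem result (p : ℕ) [Fact p.Prime] :
    ∃ (f : Polynomial (ZMod p)) (a₁ a₂ b : RatFunc (ZMod p)),
      2 ≤ f.natDegree ∧ (∀ j : ℕ, f.natDegree ≠ p ^ j) ∧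
      Transcendental (ZMod p) a₁ ∧ Polynomial.aeval a₁ f ≠ Polynomial.aeval a₂ f ∧
      Set.Infinite {l : AlgebraicClosure (RatFunc (ZMod p)) | ∃ m n : ℕ, 1 ≤ m ∧ 1 ≤ n ∧
        (fun x => Polynomial.aeval x f + l)^[m] (algebraMap (RatFunc (ZMod p)) _ a₁)
          = algebraMap (RatFunc (ZMod p)) _ b ∧
        (fun x => Polynomial.aeval x f + l)^[n] (algebraMap (RatFunc (ZMod p)) _ a₂)
          = algebraMap (RatFunc (ZMod p)) _ b} := by
  have hp : p.Prime := Fact.out
  have p2 := hp.two_le
  refine ⟨X + (X ^ p - X) ^ (p + 1), RatFunc.X, RatFunc.X + 1, RatFunc.X, ?_, ?_, ?_, ?_, ?_⟩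
  · rw [degf _ p p2]; nlinarith
  · intro j hj
    rw [degf _ p p2] at hj
    have h1 : p + 1 ∣ p ^ j := ⟨p, hj.symm⟩
    have h2 : Nat.Coprime (p + 1) (p ^ j) := Nat.Coprime.pow_right _ (by simp)
    have := h2.eq_one_of_dvd h1
    omega
  · exact RatFunc.transcendental_X
  · simp only [map_add, map_pow, map_sub, aeval_X]
    rw [add_pow_char, one_pow]
    have : (RatFunc.X : RatFunc (ZMod p)) ^ p + 1 - (RatFunc.X + 1) = RatFunc.X ^ p - RatFunc.X := by
      ring
    rw [this]
    intro h
    have : (1 : RatFunc (ZMod p)) = 0 := by linear_combination -h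
    exact one_ne_zero this
  · simp only [map_add, map_pow, map_sub, aeval_X, map_one]
    exact inf_set _ p _

end Pool.Agent.Results.MP_a5410e_nt.Counter
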